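import Pool.Agent.MP_9de622_gt.Herm

namespace Pool.Agent.Results.MP_9de622_gt.HighCodim

/-- Substantial smooth embeddings of the unit `n`-sphere in `ℝ^N` with the two-piece property, for
all `N` from `n + 1` to `n + ⌊(n + 1) / 2⌋ ^ 2`. -/
theorem result (n N : ℕ) (hn : 3 ≤ n) (h1 : n + 1 ≤ N) (h2 : N ≤ n + ((n + 1) / 2) ^ 2) :
    ∃ f : (Fin (n + 1) → ℝ) → (Fin N → ℝ),
      ContDiff ℝ ((⊤ : ℕ∞) : WithTop ℕ∞) f ∧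
      Set.InjOn f {x : Fin (n + 1) → ℝ | ∑ i, x i ^ 2 = 1} ∧
      (∀ x : Fin (n + 1) → ℝ, ∑ i, x i ^ 2 = 1 →
        ∀ w : Fin (n + 1) → ℝ, ∑ i, x i * w i = 0 → fderiv ℝ f x w = 0 → w = 0) ∧
      (∀ v : Fin N → ℝ, ∀ c : ℝ,
        IsPreconnected {x : Fin (n + 1) → ℝ | ∑ i, x i ^ 2 = 1 ∧ c ≤ ∑ j, v j * f x j}) ∧
      ¬ ∃ v : Fin N → ℝ, v ≠ 0 ∧ ∃ c : ℝ,
        ∀ x : Fin (n + 1) → ℝ, ∑ i, x i ^ 2 = 1 → ∑ j, v j * f x j = c := by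
  obtain ⟨f, a1, a2, a3, a4, a5⟩ := Pool.Agent.MP_9de622_gt.Herm.main n N (by omega) h1 h2
  simp only [sq]
  exact ⟨f, a1, a2.injOn, fun x _ w _ h => a3 x w h, a4, fun ⟨v, hv, c, h⟩ => hv (a5 v c h)⟩

end Pool.Agent.Results.MP_9de622_gt.HighCodim
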