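import Pool.Agent.MP_9de622_gt.QuadB

set_option autoImplicit false

namespace Pool.Agent.Results.MP_9de622_gt.QuadraticBound

/-- The largest `N` for which the unit `n`-sphere has a substantial map to `ℝ^N` with the
two-piece property and with components of degree at most two is `n + ⌊(n + 1) / 2⌋ ^ 2`, and it is
attained by an embedding. -/
theorem result (n : ℕ) (hn : 1 ≤ n) :
    (∀ (N : ℕ) (f : (Fin (n + 1) → ℝ) → (Fin N → ℝ)),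
      (∀ j, ∃ p : MvPolynomial (Fin (n + 1)) ℝ, p.totalDegree ≤ 2 ∧
        ∀ x : Fin (n + 1) → ℝ, ∑ i, x i ^ 2 = 1 → f x j = MvPolynomial.eval x p) →
      (∀ v : Fin N → ℝ, ∀ c : ℝ,
        IsPreconnected {x : Fin (n + 1) → ℝ | ∑ i, x i ^ 2 = 1 ∧ c ≤ ∑ j, v j * f x j}) →
      (¬ ∃ v : Fin N → ℝ, v ≠ 0 ∧ ∃ c : ℝ,
        ∀ x : Fin (n + 1) → ℝ, ∑ i, x i ^ 2 = 1 → ∑ j, v j * f x j = c) →
      N ≤ n + ((n + 1) / 2) ^ 2) ∧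
    ∃ f : (Fin (n + 1) → ℝ) → (Fin (n + ((n + 1) / 2) ^ 2) → ℝ),
      (∀ j, ∃ p : MvPolynomial (Fin (n + 1)) ℝ, p.totalDegree ≤ 2 ∧
        ∀ x : Fin (n + 1) → ℝ, f x j = MvPolynomial.eval x p) ∧
      Set.InjOn f {x : Fin (n + 1) → ℝ | ∑ i, x i ^ 2 = 1} ∧
      (∀ x : Fin (n + 1) → ℝ, ∑ i, x i ^ 2 = 1 →
        ∀ w : Fin (n + 1) → ℝ, ∑ i, x i * w i = 0 → fderiv ℝ f x w = 0 → w = 0) ∧
      (∀ v : Fin (n + ((n + 1) / 2) ^ 2) → ℝ, ∀ c : ℝ,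
        IsPreconnected {x : Fin (n + 1) → ℝ | ∑ i, x i ^ 2 = 1 ∧ c ≤ ∑ j, v j * f x j}) ∧
      ¬ ∃ v : Fin (n + ((n + 1) / 2) ^ 2) → ℝ, v ≠ 0 ∧ ∃ c : ℝ,
        ∀ x : Fin (n + 1) → ℝ, ∑ i, x i ^ 2 = 1 → ∑ j, v j * f x j = c := by
  simp only [sq]
  refine ⟨fun N f h1 h2 h3 => ?_, ?_⟩
  · rw [← sq]
    exact Pool.Agent.MP_9de622_gt.Quad.upper n N f h1 h2 fun v c h =>
      Classical.byContradiction fun hv => h3 ⟨v, hv, c, h⟩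
  · obtain ⟨f, a1, a2, a3, a4, a5⟩ := Pool.Agent.MP_9de622_gt.Quad.lower n
      (n + ((n + 1) / 2) ^ 2) hn (Nat.add_le_add_left (Nat.one_le_pow _ _ (by omega)) n) le_rfl
    exact ⟨f, a1, a2.injOn, fun x _ w _ h => a3 x w h, a4, fun ⟨v, hv, c, h⟩ => hv (a5 v c h)⟩

end Pool.Agent.Results.MP_9de622_gt.QuadraticBound
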